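import Pool.Agent.H98.EX.LTargets

/-!
# Row LFX of exa_modules (helper8): the final chain for every constant below `ks`
-/

set_option autoImplicit false

open MeasureTheory ProbabilityTheory Filter Topology
open scoped ENNReal
open Pool.Agent.H95 Pool.Agent.H95.Cop
open Pool.Agent.H55.CG (VV Mo)
open Pool.Agent.H96.Cop (chargeLaw)
open Pool.Agent.H98.CE (pc WB HK OBJ nx Fl)
open Pool.Agent.H98.SLN (RG TS MM YY sd)
open Pool.Agent.H98.EX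

namespace Pool.Agent.H8.EX

/-- all levels -/
lemma levelsX (hSTX : T_STX) (hNUCX : T_NUCX) (ϑ r U kl c0 e : ℝ) (J ms : ℕ) (hr : 0 < r)
    (hr1 : r ≤ 1 / 64) (hkl : 0 < kl) (hc0 : 0 < c0) (he : 0 < e) (her : e < 1 - r)
    (hms : 1 ≤ ms) (hη : 0 ≤ Lm kl * c0 ^ 2) (h0 : OBx ϑ r U kl c0 0 J (t0x c0 e J)) (l : ℕ) :
    OBx ϑ r U kl c0 l (ms ^ l * J) (tlx c0 (Lm kl * c0 ^ 2) e J ms l) := by
  induction l with
  | zero => simpa [tlx] using h0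
  | succ l ih =>
    have h2 := hSTX ϑ r U kl c0 e l (ms ^ l * J) ms (tlx c0 (Lm kl * c0 ^ 2) e J ms l) hr hr1 hkl
      hc0 he her hms ih (fun j => (hNUCX c0 (Lm kl * c0 ^ 2) J ms l j).2 hη e he.le)
    have h3 : ms * (ms ^ l * J) = ms ^ (l + 1) * J := by ring
    rw [h3] at h2
    exact h2

/-- the constant of the recursion -/
lemma Lm_gt (kl : ℝ) (hkl : 0 < kl) (h : kl < ks) : 1 / 2 < Lm kl := by
  have hs2 : (0 : ℝ) < Real.sqrt 2 := Real.sqrt_pos.mpr two_pos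
  have hss : Real.sqrt 2 * Real.sqrt 2 = 2 := Real.mul_self_sqrt (by norm_num)
  have hb : 0 < 8 * Real.sqrt 2 * Real.pi := by positivity
  have hks : ks ^ 2 = (8 * Real.sqrt 2 * Real.pi)⁻¹ := by
    unfold ks
    rw [← Real.rpow_natCast, ← Real.rpow_mul hb.le]
    have h0 : (-(1 / 2) : ℝ) * ((2 : ℕ) : ℝ) = -1 := by norm_num
    rw [h0, Real.rpow_neg_one]
  have h1 : kl ^ 2 < ks ^ 2 := pow_lt_pow_left₀ h hkl.le two_ne_zero
  rw [hks] at h1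
  have h2 : kl ^ 2 * (8 * Real.sqrt 2 * Real.pi) < 1 := by
    have h3 := mul_lt_mul_of_pos_right h1 hb
    rwa [inv_mul_cancel₀ hb.ne'] at h3
  unfold Lm
  rw [div_lt_div_iff₀ two_pos (by positivity)]
  have h4 := mul_lt_mul_of_pos_right h2 hs2
  have h5 : kl ^ 2 * (8 * Real.sqrt 2 * Real.pi) * Real.sqrt 2 = 16 * Real.pi * kl ^ 2 := by
    linear_combination (8 * Real.pi * kl ^ 2) * hss
  rw [h5] at h4
  linarith

theorem pf_LFX (hNUMX : T_NUMX) (hNUCX : T_NUCX) (hOBX : T_OBX) (hSTX : T_STX)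
    (hFNX : T_FNX) : T_LFX := by
  intro kl hkl hks
  have hL := Lm_gt kl hkl hks
  obtain ⟨c0, hc0, l, ms, J, hms, e0, he00, he01, hnum⟩ := hNUMX (Lm kl) hL
  have he0 : e0 < (1 + e0) / 2 := by linarith
  have he1 : (1 + e0) / 2 < 1 := by linarith
  have hepos : 0 < (1 + e0) / 2 := by linarith
  have hη : 0 ≤ Lm kl * c0 ^ 2 := mul_nonneg (by linarith) (by positivity)
  obtain ⟨ϑ, r, U, hϑ0, hϑ1, hr0, hr1, her, hU, hOB⟩ :=
    hOBX kl c0 ((1 + e0) / 2) J hkl hc0 hepos he1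
  have hlev := levelsX hSTX hNUCX ϑ r U kl c0 ((1 + e0) / 2) J ms hr0 hr1 hkl hc0 hepos her hms hη
    hOB l
  obtain ⟨x0, hx0, hfin⟩ := hFNX ϑ r U kl c0 ((1 + e0) / 2) l (ms ^ l * J)
    (tlx c0 (Lm kl * c0 ^ 2) ((1 + e0) / 2) J ms l) hr0 hr1 hkl hc0 hepos her hlev
    (fun j => (hNUCX c0 (Lm kl * c0 ^ 2) J ms l j).2 hη _ hepos.le)
    (hnum ((1 + e0) / 2) he0 he1.le)
  exact ⟨ϑ, r, U, x0, hϑ0, hϑ1, hr0, hr1, hU, hx0, hfin⟩

end Pool.Agent.H8.EX
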