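import Pool.Agent.H98.EX.KTargets

set_option autoImplicit false

open MeasureTheory ProbabilityTheory Filter Topology
open scoped ENNReal
open Pool.Agent.H95 Pool.Agent.H95.Cop Pool.Agent.H96.Cop Pool.Agent.H98.EX
open Pool.Agent.H99.CE (BX w1 cq tb Gf Hf Kd ld mx ab eb TT FL EE lg Reg wq Cc VH CT VT T_PFM T_INS
  T_CCP T_CCT T_HFT T_PHI T_ASP T_LNK T_KHT)

namespace Pool.Agent.H8.EX

/-- real inequalities for one step -/
lemma st_real {α s e δ h P ε X : ℝ} {M : ℕ} (hp : Pre α s e δ h P ε M X) {p : ℝ} (p0 : 0 ≤ p)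
    (p1 : p ≤ 2 * P) : 0 ≤ (1 + ε) * h * p ∧ (1 + ε) * h * p ≤ 1 / 4 ∧ (1 + ε) * h ≤ 1 / 8 ∧
    0 ≤ 72 * e * P ∧ 72 * e * P ≤ 1 ∧ 72 * e * P ≤ δ ∧ 4 * e * P ≤ 1 ∧ 2 * e * P ≤ 1 ∧
    0 < te α s ∧ te α s < 1 := by
  have he := hp.e0
  have hP := hp.P1
  have hε := hp.ε0
  have hh := hp.h0
  have h1 : 0 < (1 + ε) * h := by positivity
  have h2 := hp.c2
  have h3 := hp.cδ
  have h4 := hp.δ1
  have h5 : 0 ≤ e * P := by positivity
  have h6 := mul_le_mul_of_nonneg_left hP h1.le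
  refine ⟨by positivity, (mul_le_mul_of_nonneg_left p1 h1.le).trans h2, ?_, by positivity, ?_, ?_,
    ?_, ?_, ?_, ?_⟩
  · linarith only [h2, h6]
  · linarith only [h3, h4, h5]
  · linarith only [h3, h5]
  · linarith only [h3, h4, h5]
  · linarith only [h3, h4, h5]
  · linarith only [hp.t0]
  · linarith only [hp.t1]

lemma st_Kd {α t η : ℝ} (hα : 0 < α) (ht : 0 < t) (h0 : 0 ≤ η) (h1 : η ≤ 1) (M D : ℕ) :
    (Kd α t η M D).toReal ≤ 1 / t := by
  unfold Kd
  have hw0 : 0 ≤ wq α D := by unfold wq; positivity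
  have hw1 : wq α D ≤ 1 := by
    unfold wq
    apply Real.rpow_le_one_of_one_le_of_nonpos
    · exact_mod_cast le_max_right _ _
    · linarith
  rw [ENNReal.toReal_ofReal]
  · have h2 : (if D ≤ M then (1 : ℝ) else η) ≤ 1 := by split_ifs <;> linarith
    have h3 : 0 ≤ (if D ≤ M then (1 : ℝ) else η) := by split_ifs <;> linarith
    calc wq α D / t * (if D ≤ M then 1 else η) ≤ 1 / t * 1 :=
          mul_le_mul (by gcongr) h2 h3 (by positivity)
      _ = 1 / t := mul_one _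
  · have h3 : 0 ≤ (if D ≤ M then (1 : ℝ) else η) := by split_ifs <;> linarith
    positivity

/-- the contribution of the low boxes in the new unit -/
lemma st_cb (hNAX : T_NAX) {α s e c δ h P ε X : ℝ} {M k B : ℕ} (hp : Pre α s e δ h P ε M X)
    (hc : 0 < c) (hk : 1 ≤ k) (hkB : k ≤ B) (hX : ((B : ℝ) / k) ^ s ≤ X) :
    2 * ((e * P * tb α c δ B * M) ^ te α s * (4 + 1 / s)) ≤
      ε * (M * ue e α s c δ k B) := by
  obtain ⟨hna, ht, -, -, hn, -, hs', -⟩ :=
    hNAX e α s c δ k B M hp.α0 hp.s0 hp.e0 hc hp.δ0 hk hkB hp.M1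
  have hs := hp.s0
  have he := hp.e0
  have hα := hp.α0
  have hP := hp.P1
  have hM : (0 : ℝ) < M := by exact_mod_cast hp.M1
  have hk0 : (0 : ℝ) < k := by exact_mod_cast hk
  have hB0 : (0 : ℝ) < B := lt_of_lt_of_le hk0 (by exact_mod_cast hkB)
  have hBk : 0 < ((B : ℝ) / k) ^ s := by positivity
  have hX0 : 0 < X := lt_of_lt_of_le hBk hX
  have e1 : ((k : ℝ) / B) ^ s = (((B : ℝ) / k) ^ s)⁻¹ := by
    rw [← Real.inv_rpow (by positivity), inv_div]
  have e2 : 1 / X ≤ ((k : ℝ) / B) ^ s := by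
    rw [e1, one_div]
    exact inv_anti₀ hBk hX
  have e3 : (e * P * tb α c δ B * M) ^ te α s =
      (e * P) ^ te α s * tb α c δ B ^ te α s * (M : ℝ) ^ te α s := by
    rw [Real.mul_rpow (by positivity) hM.le, Real.mul_rpow (by positivity) ht.le]
  have e4 : (M : ℝ) ^ te α s = (M : ℝ) ^ (te α s - 1) * M := by
    rw [Real.rpow_sub_one hM.ne']
    field_simp
  have htθ : 0 < tb α c δ B ^ te α s := by positivity
  have h4 := hp.c4
  rw [hn, e3, e4]
  calc 2 * ((e * P) ^ te α s * tb α c δ B ^ te α s * ((M : ℝ) ^ (te α s - 1) * M) *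
        (4 + 1 / s))
      = 2 * (e * P) ^ te α s * (4 + 1 / s) * (M : ℝ) ^ (te α s - 1) * X / e *
        (M * (e * tb α c δ B ^ te α s * (1 / X))) := by
        field_simp
    _ ≤ ε * (M * (e * tb α c δ B ^ te α s * (1 / X))) :=
        mul_le_mul_of_nonneg_right h4 (by positivity)
    _ ≤ ε * (M * (e * tb α c δ B ^ te α s * ((k : ℝ) / B) ^ s)) := by
        have := hp.ε0
        gcongr

/-- one step for a concave function -/
lemma st_core (hINS : T_INS) (hASP : T_ASP) (hLNK : T_LNK) (hSUX : T_SUX) (hKHT : T_KHT)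
    (hSHX : T_SHX) (hESX : T_ESX) (hNAX : T_NAX) (hSLX : T_SLX) (hSMX : T_SMX) (K : PMF ℕ)
    (ν : Measure ℝ) [IsProbabilityMeasure ν] {α s e c δ h P ε X : ℝ} {M n0 k B : ℕ}
    (hPar : Pre α s e δ h P ε M X) (hc : 0 < c) (hR : Reg K α c δ n0) (hk : 1 ≤ k) (hkB : k ≤ B)
    (hn0 : n0 ≤ B) (hQT : QTe K ν e α s c δ k B ≤ ENNReal.ofReal P) {p g er : ℝ}
    (p0 : 0 ≤ p) (p1 : p ≤ 2 * P) (g0 : 0 ≤ g) (er0 : 0 ≤ er)
    (hQN : QNe K ν e α s c δ k B + QRe K ν e α s c δ k B ≤ ENNReal.ofReal p)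
    {φ u : ℝ≥0∞ → ℝ≥0∞} (hcc : Cc φ) (hmono : Monotone φ) (mu : Measurable u)
    (hφ : ∀ x, x ≠ ∞ → φ x ≤ x ^ te α s * (u x + ENNReal.ofReal er))
    (um : ∀ x y, x ≤ y → y ≠ ∞ → u x ≤ u y)
    (hu : ∀ D, 1 ≤ D → ∀ z y, z ≠ ∞ → y ≠ ∞ →
      u (z * (Kd α (tb α c δ B) (72 * e * P) M D * y)) ≤ u z + u y)
    (hh : ∀ n : ℕ, ∑ b ∈ Finset.range n, ∫⁻ x,
      EE (fun b => BX (w1 K B) B b) (ENNReal.ofReal (tb α c δ B)) b x ^ te α s *
      u (EE (fun b => BX (w1 K B) B b) (ENNReal.ofReal (tb α c δ B)) b x) ∂(iid ν) ≤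
      ENNReal.ofReal (ue e α s c δ k B * g)) (J : ℕ) :
    ∑ j ∈ Finset.range J, ∫⁻ x, φ (BX (w1 K (M * B)) (M * B) j x) ∂(iid ν) ≤
      ∑ j ∈ Finset.range J, φ (ENNReal.ofReal (e * P * tb α c δ B) * ∑ p ∈ TT M j,
        ab (ENNReal.ofReal (e * P * tb α c δ B)) (Kd α (tb α c δ B) (72 * e * P) M) M p) +
      ENNReal.ofReal (M * ue e α s c δ k B * ((1 + ε) ^ 2 * (g / (1 - (1 + ε) * h * p) ^ 2 +
        er * p / (1 - (1 + ε) * h * p)))) := by
  obtain ⟨q0, q1, hh8, et0, et1, etd, a2P, a22P, θ0, θ1⟩ := st_real hPar p0 p1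
  obtain ⟨hna, ht, -, -, hn, hsθ, hs', hnt⟩ :=
    hNAX e α s c δ k B M hPar.α0 hPar.s0 hPar.e0 hc hPar.δ0 hk hkB hPar.M1
  have hs := hPar.s0
  have he := hPar.e0
  have hα := hPar.α0
  have hα0 : 0 < α := by linarith only [hα]
  have hα1 := hPar.α1
  have hP0 : 0 ≤ P := by linarith [hPar.P1]
  have hB1 : 1 ≤ B := hk.trans hkB
  have hε := hPar.ε0
  have hh0 := hPar.h0
  have hM0 : (0 : ℝ) < M := by exact_mod_cast hPar.M1
  set t := tb α c δ B with htd
  set θ := te α s with hθd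
  set nn := ue e α s c δ k B with hnnd
  set q := (1 + ε) * h * p with hqd
  have hq1 : 0 < 1 - q := by linarith
  have hlnk := hLNK K α c δ n0 B M hα0 hc hPar.δ0 hR hB1 hn0
  rw [← htd] at hlnk
  have hrn : 1 + 4 * e * P + (4 * e * P) ^ θ + (e * P * (72 * e * P)) ^ θ * (1 + 1 / s) *
      (M : ℝ) ^ (θ - 1) ≤ 1 + ε := by
    have h3 := hPar.c3
    have e0 : e * P * (72 * e * P) = 72 * e ^ 2 * P ^ 2 := by ring
    rw [e0]
    linarith only [h3]
  have hna0 : 0 < nn := hna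
  -- the numbers
  set v0 := (1 + ε) / (1 - q) with hv0
  set w0 := (er * (1 + ε) + (1 + ε) * h * g * v0) / (1 - q) with hw0
  have hv00 : 0 ≤ v0 := by positivity
  have hw00 : 0 ≤ w0 := by positivity
  have hkn : t ^ (-θ) * ((1 + ε) * h / e) * nn ≤ (1 + ε) * h := by
    calc t ^ (-θ) * ((1 + ε) * h / e) * nn
        ≤ t ^ (-θ) * ((1 + ε) * h / e) * (e * t ^ θ) :=
          mul_le_mul_of_nonneg_left hnt (by positivity)
      _ = (1 + ε) * h * (t ^ (-θ) * t ^ θ) := by field_simp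
      _ = (1 + ε) * h := by rw [← Real.rpow_add ht]; simp
  have hVH : VH ν B M J (fun b => BX (w1 K B) B b) (ld α t δ M)
      (fun j => CT (BX (w1 K (M * B)) B) (TT M j))
      (fun j => VT (BX (w1 K (M * B)) B) (ld α t δ M) B (TT M j) (J * M)) φ
      (ENNReal.ofReal t) (ENNReal.ofReal (e * P * t)) (Kd α t (72 * e * P) M) θ u
      (ENNReal.ofReal er) (ENNReal.ofReal (1 + ε)) (ENNReal.ofReal (nn * p))
      (ENNReal.ofReal (nn * g)) (ENNReal.ofReal (t ^ (-θ) * ((1 + ε) * h / e)))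
      (ENNReal.ofReal v0) (ENNReal.ofReal w0) := by
    constructor
    · exact hPar.M1
    · intro j hj
      exact (hINS K B M (ld α t δ M) hB1 hPar.M1 hlnk J j hj).1
    · exact hcc
    · exact hSLX K ν e α s c δ P k B hα hs θ1 he hc hPar.δ0 hk hkB hP0 hQT
    · exact ENNReal.ofReal_ne_top
    · intro D
      exact ENNReal.ofReal_ne_top
    · exact hSUX α t δ P (72 * e * P) e M hα hα1 ht hPar.δ0 hP0 he le_rfl et1 etd
    · exact θ0
    · exact θ1
    · exact mu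
    · exact hφ
    · exact um
    · exact hu
    · intro q'
      exact (hESX α t θ s (72 * e * P) P e M J q' hα hα1 ht θ0 θ1 hsθ hs et0 et1 hP0 he a2P
        hPar.M1).trans (ENNReal.ofReal_le_ofReal hrn)
    · refine ((hSMX K ν e α s c δ k B hα hs θ1 he hc hPar.δ0 hk hkB (J * M)).1).trans ?_
      rw [ENNReal.ofReal_mul hna0.le]
      exact mul_le_mul' le_rfl hQN
    · exact hh (J * M)
    · refine (hKHT α t θ s (72 * e * P) M (J * M) hα0 ht θ0 θ1 hsθ hs et0 et1 hPar.M1).trans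
        (ENNReal.ofReal_le_ofReal (mul_le_mul_of_nonneg_left ?_ (by positivity)))
      rw [le_div_iff₀ (by positivity)]
      have := hPar.c1
      linarith
    · rw [← ENNReal.ofReal_mul (by positivity), ← ENNReal.ofReal_mul (by positivity),
        ← ENNReal.ofReal_add (by positivity) (by positivity)]
      apply ENNReal.ofReal_le_ofReal
      have h1 : t ^ (-θ) * ((1 + ε) * h / e) * (nn * p) ≤ q := by
        calc t ^ (-θ) * ((1 + ε) * h / e) * (nn * p) =
            t ^ (-θ) * ((1 + ε) * h / e) * nn * p := by ring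
          _ ≤ (1 + ε) * h * p := mul_le_mul_of_nonneg_right hkn p0
      have h2 : (1 + ε) + q * v0 = v0 := by
        rw [hv0]
        field_simp
        ring
      calc 1 + ε + t ^ (-θ) * ((1 + ε) * h / e) * (nn * p) * v0 ≤ 1 + ε + q * v0 := by
            gcongr
        _ = v0 := h2
    · rw [← ENNReal.ofReal_mul er0, ← ENNReal.ofReal_mul (by positivity),
        ← ENNReal.ofReal_mul (by positivity), ← ENNReal.ofReal_mul (by positivity),
        ← ENNReal.ofReal_mul (by positivity),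
        ← ENNReal.ofReal_add (by positivity) (by positivity),
        ← ENNReal.ofReal_add (by positivity) (by positivity)]
      apply ENNReal.ofReal_le_ofReal
      have h1 : t ^ (-θ) * ((1 + ε) * h / e) * (nn * p) ≤ q := by
        calc t ^ (-θ) * ((1 + ε) * h / e) * (nn * p) =
            t ^ (-θ) * ((1 + ε) * h / e) * nn * p := by ring
          _ ≤ (1 + ε) * h * p := mul_le_mul_of_nonneg_right hkn p0
      have h3 : t ^ (-θ) * ((1 + ε) * h / e) * (nn * g) ≤ (1 + ε) * h * g := by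
        calc t ^ (-θ) * ((1 + ε) * h / e) * (nn * g) =
            t ^ (-θ) * ((1 + ε) * h / e) * nn * g := by ring
          _ ≤ (1 + ε) * h * g := mul_le_mul_of_nonneg_right hkn g0
      have h2 : er * (1 + ε) + q * w0 + (1 + ε) * h * g * v0 = w0 := by
        have h4 : w0 * (1 - q) = er * (1 + ε) + (1 + ε) * h * g * v0 := by
          rw [hw0]
          field_simp
        linarith
      calc er * (1 + ε) + t ^ (-θ) * ((1 + ε) * h / e) * (nn * p) * w0 +
            t ^ (-θ) * ((1 + ε) * h / e) * (nn * g) * v0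
          ≤ er * (1 + ε) + q * w0 + (1 + ε) * h * g * v0 := by gcongr
        _ = w0 := h2
  have hasp := hASP ν B M J _ _ _ _ φ _ _ _ θ u _ _ _ _ _ _ _ hVH (ENNReal.ofReal (M * (1 + ε)))
    ((hSHX α t θ s (72 * e * P) P e M (J * M) hα hα1 ht θ0 θ1 hsθ hs et0 et1 hP0 he a2P
      hPar.M1).trans (ENNReal.ofReal_le_ofReal (mul_le_mul_of_nonneg_left hrn hM0.le)))
  refine le_trans (Finset.sum_le_sum fun j hj => lintegral_mono fun x => hmono
    ((hINS K B M (ld α t δ M) hB1 hPar.M1 hlnk J j (Finset.mem_range.1 hj)).2 x)) (hasp.trans ?_)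
  refine add_le_add le_rfl (le_of_eq ?_)
  rw [← ENNReal.ofReal_mul (by positivity), ← ENNReal.ofReal_mul (by positivity),
    ← ENNReal.ofReal_add (by positivity) (by positivity), ← ENNReal.ofReal_mul (by positivity)]
  congr 1
  rw [hw0, hv0]
  have h5 : (1 + ε) * h * p = q := rfl
  field_simp
  rw [hqd]
  ring

end Pool.Agent.H8.EX
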