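import Pool.Agent.H8.EX.S20

set_option autoImplicit false

open MeasureTheory ProbabilityTheory Filter Topology
open scoped ENNReal
open Pool.Agent.H95 Pool.Agent.H95.Cop Pool.Agent.H96.Cop Pool.Agent.H98.EX
open Pool.Agent.H99.CE (BX w1 cq tb Gf Hf Kd ld mx ab eb TT FL EE lg Reg wq Cc VH CT VT T_PFM T_INS
  T_CCP T_CCT T_HFT T_PHI T_ASP T_LNK T_KHT)

namespace Pool.Agent.H8.EX

lemma st_lg_mono {t : ℝ} (ht : 0 < t) {x y : ℝ≥0∞} (hxy : x ≤ y) (hy : y ≠ ∞) :
    lg t x ≤ lg t y := by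
  unfold lg
  have hxt : x.toReal ≤ y.toReal := ENNReal.toReal_mono hy hxy
  rcases eq_or_lt_of_le (ENNReal.toReal_nonneg (a := x)) with h | h
  · rw [← h]
    simp
  · apply ENNReal.ofReal_le_ofReal
    apply Real.log_le_log
    · positivity
    · gcongr

lemma st_lg_mul {t : ℝ} (ht : 0 < t) {κ z y : ℝ≥0∞} (hκ : κ.toReal ≤ 1 / t) :
    lg t (z * (κ * y)) ≤ lg t z + lg t y := by
  unfold lg
  rw [ENNReal.toReal_mul, ENNReal.toReal_mul]
  rcases eq_or_lt_of_le (ENNReal.toReal_nonneg (a := z)) with hz | hz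
  · rw [← hz]
    simp
  rcases eq_or_lt_of_le (ENNReal.toReal_nonneg (a := y)) with hy | hy
  · rw [← hy]
    simp
  rcases eq_or_lt_of_le (ENNReal.toReal_nonneg (a := κ)) with hk | hk
  · rw [← hk]
    simp
  refine (ENNReal.ofReal_le_ofReal ?_).trans ENNReal.ofReal_add_le
  rw [← Real.log_mul (by positivity) (by positivity)]
  apply Real.log_le_log
  · positivity
  · calc z.toReal * (κ.toReal * y.toReal) / t ≤ z.toReal * (1 / t * y.toReal) / t := by gcongr
      _ = z.toReal / t * (y.toReal / t) := by ring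

theorem pf_S2X (hPFM : Pool.Agent.H99.CE.T_PFM) (hINS : Pool.Agent.H99.CE.T_INS)
    (hCCP : Pool.Agent.H99.CE.T_CCP) (hCCT : Pool.Agent.H99.CE.T_CCT)
    (hHFT : Pool.Agent.H99.CE.T_HFT) (hPHI : Pool.Agent.H99.CE.T_PHI)
    (hASP : Pool.Agent.H99.CE.T_ASP) (hLNK : Pool.Agent.H99.CE.T_LNK)
    (hKHT : Pool.Agent.H99.CE.T_KHT) (hSUX : T_SUX) (hSHX : T_SHX) (hESX : T_ESX)
    (hCBX : T_CBX) (hNAX : T_NAX) (hSLX : T_SLX) (hSMX : T_SMX) : T_S2X := by
  intro K ν _ α s e c δ h P ε X M n0 k B hPar hc hR hk hkB hn0 hX hQT p g p0 p1 g0 hQN hQG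
  obtain ⟨q0, q1, hh8, et0, et1, etd, a2P, a22P, θ0, θ1⟩ := st_real hPar p0 p1
  obtain ⟨hna, ht, hnM, htM, hn, hsθ, hs', hnt⟩ :=
    hNAX e α s c δ k B M hPar.α0 hPar.s0 hPar.e0 hc hPar.δ0 hk hkB hPar.M1
  have hs := hPar.s0
  have he := hPar.e0
  have hα := hPar.α0
  have hα0 : 0 < α := by linarith only [hα]
  have hε := hPar.ε0
  have hP0 : 0 ≤ P := by linarith [hPar.P1]
  have hM1 : (1 : ℝ) ≤ M := by exact_mod_cast hPar.M1
  have hM0 : (0 : ℝ) < M := by linarith
  have hlogM : 0 ≤ Real.log M := Real.log_nonneg hM1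
  have hh0 := hPar.h0
  have hq1 : 0 < 1 - (1 + ε) * h * p := by linarith
  have htM' : tb α c δ (M * B) / tb α c δ B = (M : ℝ) ^ (1 + α) := by
    rw [htM]
    field_simp
  have ht' : 0 < tb α c δ (M * B) := by
    rw [htM]
    positivity
  have htt : tb α c δ B ≤ tb α c δ (M * B) := by
    rw [htM]
    exact le_mul_of_one_le_left ht.le (Real.one_le_rpow hM1 (by linarith))
  have hW : e * Real.log (tb α c δ (M * B) / tb α c δ B) = e * ((1 + α) * Real.log M) := by
    rw [htM', Real.log_rpow hM0]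
  have hhW : (1 + α) * h ≤ e * Real.log (tb α c δ (M * B) / tb α c δ B) := by
    rw [hW]
    have h1 := mul_le_mul_of_nonneg_left hPar.hM (by linarith only [hα0] : 0 ≤ 1 + α)
    linarith only [h1]
  set t := tb α c δ B with htd
  set t' := tb α c δ (M * B) with htd'
  set θ := te α s with hθd
  set W := e * Real.log (t' / t) with hWd
  set er := 2 * e / (1 - θ) with herd
  have hθα : 1 / 4 ≤ 1 - θ := by linarith only [hPar.t1]
  have her0 : 0 ≤ er := by positivity
  have her1 : er ≤ 8 * e := by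
    rw [herd, div_le_iff₀ (by linarith only [hθα])]
    have h1 := mul_le_mul_of_nonneg_left hθα (show 0 ≤ 8 * e by positivity)
    linarith only [h1]
  have h64 : 128 * e ≤ 1 := by
    have h8 : 128 * e ≤ 128 * e * P := le_mul_of_one_le_right (by positivity) hPar.P1
    linarith only [h8, hPar.c6, hPar.ε1]
  have hCG := (hCCT.2.1 t' θ ht' θ0 θ1).2
  have hCH := (hCCT.2.1 t' θ ht' θ0 θ1).1
  have hcc : Cc (fun x => ENNReal.ofReal e * Gf t' θ x + ENNReal.ofReal W * Hf t' θ x) :=
    hCCT.2.2 (Gf t' θ) (Hf t' θ) hCG hCH _ _ ENNReal.ofReal_ne_top ENNReal.ofReal_ne_top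
  have hmono := (hCCP _ hcc).1
  have hmG := (hCCP _ hCG).2.1
  have hmH := (hCCP _ hCH).2.1
  have hφ : ∀ x, x ≠ ∞ → ENNReal.ofReal e * Gf t' θ x + ENNReal.ofReal W * Hf t' θ x ≤
      x ^ θ * (ENNReal.ofReal e * lg t x + ENNReal.ofReal er) := fun x hx =>
    hPHI t t' θ e x ht htt θ0 θ1 he.le hx
  have hmu : Measurable fun x => ENNReal.ofReal e * lg t x := by
    unfold lg
    exact measurable_const.mul (ENNReal.measurable_ofReal.comp
      (Real.measurable_log.comp (ENNReal.measurable_toReal.div_const t)))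
  have hcore := fun J => st_core hINS hASP hLNK hSUX hKHT hSHX hESX hNAX hSLX hSMX K ν hPar hc hR
    hk hkB hn0 hQT p0 p1 (g := g) (er := er) g0 her0 hQN
    (φ := fun x => ENNReal.ofReal e * Gf t' θ x + ENNReal.ofReal W * Hf t' θ x)
    (u := fun x => ENNReal.ofReal e * lg t x) hcc hmono hmu hφ
    (fun x y hxy hy => mul_le_mul' le_rfl (st_lg_mono ht hxy hy))
    (fun D _ z y _ _ => by
      rw [← mul_add]
      exact mul_le_mul' le_rfl (st_lg_mul ht (st_Kd hα0 ht et0 et1 M D)))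
    (fun n => by
      refine ((hSMX K ν e α s c δ k B hα hs θ1 he hc hPar.δ0 hk hkB n).2).trans ?_
      rw [ENNReal.ofReal_mul hna.le]
      exact mul_le_mul' le_rfl hQG) J
  -- the low boxes
  have hcb : ∀ J, ∑ j ∈ Finset.range J, (fun x => ENNReal.ofReal e * Gf t' θ x +
      ENNReal.ofReal W * Hf t' θ x) (ENNReal.ofReal (e * P * t) * ∑ p ∈ TT M j,
        ab (ENNReal.ofReal (e * P * t)) (Kd α t (72 * e * P) M) M p) ≤
      ENNReal.ofReal (ε * (M * ue e α s c δ k B)) := by
    intro J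
    have hcb0 := hCBX α t θ s (72 * e * P) P e M J hα
      hPar.α1 ht θ0 θ1 hsθ hs et0 et1 hP0 he a2P hPar.M1
    have h1 : ∀ j ∈ Finset.range J, (fun x => ENNReal.ofReal e * Gf t' θ x +
        ENNReal.ofReal W * Hf t' θ x) (ENNReal.ofReal (e * P * t) * ∑ p ∈ TT M j,
          ab (ENNReal.ofReal (e * P * t)) (Kd α t (72 * e * P) M) M p) ≤
        2 * (ENNReal.ofReal (e * P * t) * ∑ p ∈ TT M j,
          ab (ENNReal.ofReal (e * P * t)) (Kd α t (72 * e * P) M) M p) ^ θ := by
      intro j _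
      have h2 := hcb0.2 j
      set y := ENNReal.ofReal (e * P * t) * ∑ p ∈ TT M j,
          ab (ENNReal.ofReal (e * P * t)) (Kd α t (72 * e * P) M) M p with hy
      have hyt : y ≠ ∞ := ne_top_of_le_ne_top ENNReal.ofReal_ne_top h2
      refine (hφ y hyt).trans ?_
      rw [mul_comm]
      refine mul_le_mul' ?_ le_rfl
      unfold lg
      rw [← ENNReal.ofReal_mul (by positivity)]
      have h3 : e * Real.log (y.toReal / t) ≤ 1 := by
        have h4 : Real.log (y.toReal / t) ≤ Real.log M := by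
          rcases eq_or_lt_of_le (ENNReal.toReal_nonneg (a := y)) with h | h
          · rw [← h]
            simpa using hlogM
          · apply Real.log_le_log (by positivity)
            rw [div_le_iff₀ ht]
            have h5 : y.toReal ≤ 2 * (e * P * t * M) := by
              have := ENNReal.toReal_mono ENNReal.ofReal_ne_top h2
              rwa [ENNReal.toReal_ofReal (by positivity)] at this
            have h6 : 2 * (e * P * t * M) = (2 * e * P) * (M * t) := by ring
            rw [h6] at h5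
            have h7 : (2 * e * P) * (M * t) ≤ 1 * (M * t) :=
              mul_le_mul_of_nonneg_right a22P (by positivity)
            linarith
        have h8 : e * (2 + Real.log M + (72 * e * P) ^ θ * (1 + 1 / s)) ≤ 1 / 8 :=
          (hPar.c1).trans hh8
        have h9 : 0 ≤ e * ((72 * e * P) ^ θ * (1 + 1 / s)) := by positivity
        have h10 : e * Real.log (y.toReal / t) ≤ e * Real.log M :=
          mul_le_mul_of_nonneg_left h4 (by positivity)
        have h11 : e * (2 + Real.log M + (72 * e * P) ^ θ * (1 + 1 / s)) =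
            2 * e + e * Real.log M +
              e * ((72 * e * P) ^ θ * (1 + 1 / s)) := by ring
        linarith [sq_nonneg α]
      calc ENNReal.ofReal (e * Real.log (y.toReal / t)) + ENNReal.ofReal er
          ≤ ENNReal.ofReal 1 + ENNReal.ofReal 1 := by
            apply add_le_add
            · exact ENNReal.ofReal_le_ofReal h3
            · exact ENNReal.ofReal_le_ofReal (by linarith)
        _ = 2 := by
          rw [ENNReal.ofReal_one]
          exact one_add_one_eq_two
    refine (Finset.sum_le_sum h1).trans ?_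
    rw [← Finset.mul_sum]
    refine (mul_le_mul' le_rfl hcb0.1).trans ?_
    have h2 : (2 : ℝ≥0∞) = ENNReal.ofReal 2 := by simp
    rw [h2, ← ENNReal.ofReal_mul (by norm_num)]
    exact ENNReal.ofReal_le_ofReal (st_cb hNAX hPar hc hk hkB hX)
  -- the left side
  have hmB : ∀ j, Measurable fun x : ℕ → ℝ => BX (w1 K (M * B)) (M * B) j x := fun j =>
    ((hPFM.1 (w1 K (M * B)) ((hPFM.2 K).1 (M * B))).2.1 (M * B) j).1
  have hfin : ∀ n : ℕ, ENNReal.ofReal e * ∑ b ∈ Finset.range n,
      ∫⁻ x, Gf t' θ (BX (w1 K (M * B)) (M * B) b x) ∂(iid ν) +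
      ENNReal.ofReal W * ∫⁻ x, Hf t' θ (BX (w1 K (M * B)) (M * B) 0 x) ∂(iid ν) ≤
      ENNReal.ofReal (((1 + ε) ^ 2 * g / (1 - (1 + ε) * h * p) ^ 2 + 2 * ε) *
        (M * ue e α s c δ k B)) := by
    intro n
    have h1 : ∑ j ∈ Finset.range (n + 1), ∫⁻ x, (fun x => ENNReal.ofReal e * Gf t' θ x +
        ENNReal.ofReal W * Hf t' θ x) (BX (w1 K (M * B)) (M * B) j x) ∂(iid ν) =
        ENNReal.ofReal e * ∑ b ∈ Finset.range (n + 1),
          ∫⁻ x, Gf t' θ (BX (w1 K (M * B)) (M * B) b x) ∂(iid ν) +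
        ENNReal.ofReal W * ∑ b ∈ Finset.range (n + 1),
          ∫⁻ x, Hf t' θ (BX (w1 K (M * B)) (M * B) b x) ∂(iid ν) := by
      rw [Finset.mul_sum, Finset.mul_sum, ← Finset.sum_add_distrib]
      apply Finset.sum_congr rfl
      intro j _
      have m1 : Measurable fun x => Gf t' θ (BX (w1 K (M * B)) (M * B) j x) := hmG.comp (hmB j)
      have m2 : Measurable fun x => Hf t' θ (BX (w1 K (M * B)) (M * B) j x) := hmH.comp (hmB j)
      simp only
      rw [lintegral_add_left (m1.const_mul _), lintegral_const_mul _ m1,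
        lintegral_const_mul _ m2]
    have h2 : ENNReal.ofReal e * ∑ b ∈ Finset.range n,
        ∫⁻ x, Gf t' θ (BX (w1 K (M * B)) (M * B) b x) ∂(iid ν) +
        ENNReal.ofReal W * ∫⁻ x, Hf t' θ (BX (w1 K (M * B)) (M * B) 0 x) ∂(iid ν) ≤
        ENNReal.ofReal e * ∑ b ∈ Finset.range (n + 1),
          ∫⁻ x, Gf t' θ (BX (w1 K (M * B)) (M * B) b x) ∂(iid ν) +
        ENNReal.ofReal W * ∑ b ∈ Finset.range (n + 1),
          ∫⁻ x, Hf t' θ (BX (w1 K (M * B)) (M * B) b x) ∂(iid ν) := by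
      refine add_le_add (mul_le_mul' le_rfl ?_) (mul_le_mul' le_rfl ?_)
      · exact Finset.sum_le_sum_of_subset (Finset.range_subset_range.2 (Nat.le_succ n))
      · exact Finset.single_le_sum
          (f := fun b => ∫⁻ x, Hf t' θ (BX (w1 K (M * B)) (M * B) b x) ∂(iid ν))
          (fun _ _ => zero_le) (Finset.mem_range.2 (Nat.succ_pos n))
    refine h2.trans ?_
    rw [← h1]
    refine (hcore (n + 1)).trans ((add_le_add (hcb (n + 1)) le_rfl).trans ?_)
    rw [← ENNReal.ofReal_add (by positivity) (by positivity)]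
    apply ENNReal.ofReal_le_ofReal
    have h3 : (1 + ε) ^ 2 * (er * p / (1 - (1 + ε) * h * p)) ≤ ε := by
      have h4 : er * p / (1 - (1 + ε) * h * p) ≤ 8 * e * (2 * P) / (3 / 4) := by
        apply div_le_div₀ (by positivity) _ (by norm_num) (by linarith)
        exact mul_le_mul her1 p1 p0 (by positivity)
      have h5 : (1 + ε) ^ 2 ≤ 4 := by
        have h12 : (1 + ε) ^ 2 ≤ 2 ^ 2 :=
          pow_le_pow_left₀ (by positivity) (by linarith [hPar.ε1]) 2
        linarith
      have h7 : 0 ≤ er * p / (1 - (1 + ε) * h * p) := by positivity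
      calc (1 + ε) ^ 2 * (er * p / (1 - (1 + ε) * h * p)) ≤ 4 * (8 * e * (2 * P) / (3 / 4)) :=
            mul_le_mul h5 h4 h7 (by norm_num)
        _ ≤ 128 * e * P := by
          have h13 : 0 ≤ e * P := by positivity
          have h14 : 4 * (8 * e * (2 * P) / (3 / 4)) = 256 / 3 * (e * P) := by ring
          have h15 : 128 * e * P = 128 * (e * P) := by ring
          rw [h14, h15]
          linarith only [h13]
        _ ≤ ε := hPar.c6
    have h8 : 0 ≤ (M : ℝ) * ue e α s c δ k B := by positivity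
    have h9 : (M : ℝ) * ue e α s c δ k B * ((1 + ε) ^ 2 * (g / (1 - (1 + ε) * h * p) ^ 2 +
        er * p / (1 - (1 + ε) * h * p))) =
        ((1 + ε) ^ 2 * g / (1 - (1 + ε) * h * p) ^ 2) * (M * ue e α s c δ k B) +
        ((1 + ε) ^ 2 * (er * p / (1 - (1 + ε) * h * p))) * (M * ue e α s c δ k B) := by
      ring
    have h10 := mul_le_mul_of_nonneg_right h3 h8
    have h11 : ((1 + ε) ^ 2 * g / (1 - (1 + ε) * h * p) ^ 2 + 2 * ε) *
        (M * ue e α s c δ k B) =
        ((1 + ε) ^ 2 * g / (1 - (1 + ε) * h * p) ^ 2) * (M * ue e α s c δ k B) +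
        2 * (ε * (M * ue e α s c δ k B)) := by
      ring
    rw [h9, h11]
    linarith
  unfold QGe QNe
  rw [hnM, ← mul_div_assoc, ← ENNReal.add_div]
  apply ENNReal.div_le_of_le_mul
  rw [← ENNReal.ofReal_mul (by positivity)]
  refine le_trans (add_le_add le_rfl (mul_le_mul' (ENNReal.ofReal_le_ofReal hhW) le_rfl)) ?_
  rw [ENNReal.tsum_eq_iSup_nat, ENNReal.mul_iSup, ENNReal.iSup_add]
  exact iSup_le hfin

end Pool.Agent.H8.EX
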